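import Mathlib
import Pool.Agent.Helper11.Can.Defs

/-!
# CAN-L13, CAN-L14: duality and vanishing property of the flags (project CAN, MP_5f0950_ag)
-/

universe u

open Finset Matrix

namespace Pool.Agent.Helper11.Can

open Pool.Agent.Helper10.GIT Pool.Agent.Helper11.GIT

variable {P : ℕ} {d : Fin P → ℕ}

namespace L13

lemma mem_flag {κ : Type*} [Field κ] {h : Mats d κ} {γ : WSpace d} {c : Fin P} {a : ℝ}
    {x : Fin (d c) → κ} :
    x ∈ flag h γ c a ↔ ∀ b, γ ⟨c, b⟩ < a → (h c).mulVec x b = 0 := Iff.rfl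

/-- `(h * G * hᵀ)⁻¹ * h = (hᵀ)⁻¹ * B` -/
lemma inv_mul_h {κ : Type*} [Field κ] {k : ℕ} {h G B : Matrix (Fin k) (Fin k) κ}
    (hh : h.det ≠ 0) (hGB : G * B = 1) :
    (h * G * hᵀ)⁻¹ * h = (hᵀ)⁻¹ * B := by
  have hu : IsUnit h.det := isUnit_iff_ne_zero.2 hh
  have hut : IsUnit (hᵀ).det := by
    rw [Matrix.det_transpose]
    exact hu
  have hG : IsUnit G.det := by
    rw [isUnit_iff_exists_inv]
    refine ⟨B.det, ?_⟩
    rw [← Matrix.det_mul, hGB, Matrix.det_one]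
  have hG' : IsUnit (h * G * hᵀ).det := by
    rw [Matrix.det_mul, Matrix.det_mul]
    exact (hu.mul hG).mul hut
  have h1 : (h * G * hᵀ) * ((hᵀ)⁻¹ * B) = h := by
    calc (h * G * hᵀ) * ((hᵀ)⁻¹ * B) = h * (G * ((hᵀ * (hᵀ)⁻¹) * B)) := by
          simp only [Matrix.mul_assoc]
      _ = h := by rw [Matrix.mul_nonsing_inv _ hut, Matrix.one_mul, hGB, Matrix.mul_one]
  calc (h * G * hᵀ)⁻¹ * h = (h * G * hᵀ)⁻¹ * ((h * G * hᵀ) * ((hᵀ)⁻¹ * B)) := by rw [h1]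
    _ = (hᵀ)⁻¹ * B := by
      rw [← Matrix.mul_assoc, Matrix.nonsing_inv_mul _ hG', Matrix.one_mul]

/-- `hᵀ * (h * G * hᵀ)⁻¹ * h = B` -/
lemma transpose_inv_mul {κ : Type*} [Field κ] {k : ℕ} {h G B : Matrix (Fin k) (Fin k) κ}
    (hh : h.det ≠ 0) (hGB : G * B = 1) :
    hᵀ * ((h * G * hᵀ)⁻¹ * h) = B := by
  have hut : IsUnit (hᵀ).det := by
    rw [Matrix.det_transpose]
    exact isUnit_iff_ne_zero.2 hh
  rw [inv_mul_h hh hGB, ← Matrix.mul_assoc, Matrix.mul_nonsing_inv _ hut, Matrix.one_mul]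

end L13

/-- CAN-L13: duality of the flags (`x ⬝ᵥ B *ᵥ y = x' ⬝ᵥ G'⁻¹ *ᵥ y'` for `x' = h *ᵥ x`,
`y' = h *ᵥ y`, `G' = h * G * hᵀ`, `B = G⁻¹`) -/
theorem flag_dual {κ : Type u} [Field κ] {h : Mats d κ} {γ : WSpace d} (c : Fin P)
    (hh : (h c).det ≠ 0) (G B : Matrix (Fin (d c)) (Fin (d c)) κ) (hGB : G * B = 1)
    (h1 : ∀ a b, (h c * G * (h c)ᵀ) a b ≠ 0 → 0 ≤ γ ⟨c, a⟩ + γ ⟨c, b⟩)
    (h2 : ∀ a b, (h c * G * (h c)ᵀ)⁻¹ a b ≠ 0 → γ ⟨c, a⟩ + γ ⟨c, b⟩ ≤ 0)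
    (a : ℝ) (x : Fin (d c) → κ) :
    x ∈ flag h γ c a ↔ ∀ a', -a < a' → ∀ y ∈ flag h γ c a', x ⬝ᵥ B.mulVec y = 0 := by
  constructor
  · intro hx a' ha' y hy
    rw [← L13.transpose_inv_mul hh hGB, ← Matrix.mulVec_mulVec, Matrix.dotProduct_mulVec,
      Matrix.vecMul_transpose, ← Matrix.mulVec_mulVec]
    refine sum_eq_zero fun b _ => ?_
    by_cases hb : γ ⟨c, b⟩ < a
    · exact mul_eq_zero_of_left (hx b hb) _
    · refine mul_eq_zero_of_right _ ?_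
      refine Finset.sum_eq_zero (s := univ)
        (f := fun b' => (h c * G * (h c)ᵀ)⁻¹ b b' * (h c).mulVec y b') fun b' _ => ?_
      by_cases hb' : γ ⟨c, b'⟩ < a'
      · exact mul_eq_zero_of_right _ (hy b' hb')
      · refine mul_eq_zero_of_left ?_ _
        by_contra hne
        have h3 := h2 b b' hne
        push Not at hb hb'
        linarith
  · intro hx b hb
    set y : Fin (d c) → κ := (G * (h c)ᵀ).mulVec (Pi.single b 1) with hy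
    have hyf : y ∈ flag h γ c (-γ ⟨c, b⟩) := by
      intro b' hb'
      rw [hy, Matrix.mulVec_mulVec, Matrix.mulVec_single_one, ← Matrix.mul_assoc]
      by_contra hne
      have h3 := h1 b' b hne
      linarith
    have h3 := hx (-γ ⟨c, b⟩) (by linarith) y hyf
    have hBG : B * G = 1 := mul_eq_one_comm.1 hGB
    rw [hy, Matrix.mulVec_mulVec, ← Matrix.mul_assoc, hBG, Matrix.one_mul,
      Matrix.dotProduct_mulVec, Matrix.vecMul_transpose] at h3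
    simpa using h3

/-- CAN-L14: the vanishing property. (`x i ᵥ* B = u i ᵥ* h` with `u i = (G'ᵀ)⁻¹ *ᵥ (h *ᵥ x i)`,
so `∑ w, z w * ∏ i, (x i ᵥ* B) (w i) = ∑ w, (act (sh h χ) z) w * ∏ i, u i (w i)`.) -/
theorem flag_vanish {κ : Type u} [Field κ] {A N : Family d κ} {h : Mats d κ} {γ : WSpace d}
    (ho : Adapted A N h γ) (G B : Mats d κ) (hGB : ∀ c, G c * B c = 1)
    (h2 : ∀ c a b, (h c * G c * (h c)ᵀ)⁻¹ a b ≠ 0 → γ ⟨c, a⟩ + γ ⟨c, b⟩ ≤ 0)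
    {χ : Shape P} (z : Ten d κ χ) (a : Fin χ.1 → ℝ) (x : ∀ i, Fin (d (χ.2 i)) → κ)
    (hx : ∀ i, x i ∈ flag h γ (χ.2 i) (a i))
    (hz : (z ∈ A χ ∧ 0 < ∑ i, a i) ∨ (z ∈ N χ ∧ 0 ≤ ∑ i, a i)) :
    ∑ w : Word d χ, z w * ∏ i, (x i ᵥ* B (χ.2 i)) (w i) = 0 := by
  set u : ∀ i, Fin (d (χ.2 i)) → κ := fun i =>
    ((h (χ.2 i)).mulVec (x i)) ᵥ* (h (χ.2 i) * G (χ.2 i) * (h (χ.2 i))ᵀ)⁻¹ with hu
  have hxu : ∀ i, x i ᵥ* B (χ.2 i) = u i ᵥ* h (χ.2 i) := by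
    intro i
    rw [hu]
    simp only
    rw [Matrix.vecMul_vecMul, ← Matrix.vecMul_transpose, Matrix.vecMul_vecMul,
      L13.transpose_inv_mul (ho.det _) (hGB _)]
  have hsum : ∑ w : Word d χ, z w * ∏ i, (x i ᵥ* B (χ.2 i)) (w i) =
      ∑ w : Word d χ, act (sh h χ) z w * ∏ i, u i (w i) := by
    have h3 : ∀ w : Word d χ, z w * ∏ i, (x i ᵥ* B (χ.2 i)) (w i) =
        ∑ w' : Word d χ, (∏ i, u i (w' i)) * ((∏ i, h (χ.2 i) (w' i) (w i)) * z w) := by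
      intro w
      have h4 : ∏ i, (x i ᵥ* B (χ.2 i)) (w i) =
          ∑ w' : Word d χ, ∏ i, (u i (w' i) * h (χ.2 i) (w' i) (w i)) := by
        have h5 : ∀ i, (x i ᵥ* B (χ.2 i)) (w i) =
            ∑ b : Fin (d (χ.2 i)), u i b * h (χ.2 i) b (w i) := by
          intro i
          rw [hxu]
          rfl
        rw [prod_congr rfl fun i _ => h5 i, prod_univ_sum, Fintype.piFinset_univ]
      rw [h4, mul_sum]
      refine sum_congr rfl fun w' _ => ?_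
      rw [prod_mul_distrib]
      ring
    rw [sum_congr rfl fun w _ => h3 w, sum_comm]
    refine sum_congr rfl fun w' _ => ?_
    rw [← mul_sum, act_apply, mul_comm]
    rfl
  rw [hsum]
  refine sum_eq_zero fun w _ => ?_
  rw [mul_eq_zero]
  by_contra hcon
  push Not at hcon
  obtain ⟨hact, hprod⟩ := hcon
  have hγ : ∀ i, γ (lt w i) ≤ -a i := by
    intro i
    have h3 : u i (w i) ≠ 0 := fun h => hprod (prod_eq_zero (mem_univ i) h)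
    rw [hu] at h3
    simp only [Matrix.vecMul, dotProduct] at h3
    obtain ⟨b', _, hb'⟩ := exists_ne_zero_of_sum_ne_zero h3
    have h4 : (h (χ.2 i)).mulVec (x i) b' ≠ 0 := left_ne_zero_of_mul hb'
    have h5 := h2 _ _ _ (right_ne_zero_of_mul hb')
    have h6 : ¬ γ ⟨χ.2 i, b'⟩ < a i := fun hlt => h4 (hx i b' hlt)
    unfold lt
    push Not at h6
    linarith
  have hsum2 : wgt γ ⟨χ, w⟩ ≤ -∑ i, a i := by
    unfold wgt
    rw [← sum_neg_distrib]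
    exact sum_le_sum fun i _ => hγ i
  rcases hz with ⟨hzA, hpos⟩ | ⟨hzN, hpos⟩
  · have h3 := ho.nonneg ⟨χ, w⟩ ⟨z, hzA, hact⟩
    linarith
  · have h3 := ho.one_le ⟨χ, w⟩ ⟨z, hzN, hact⟩
    linarith

end Pool.Agent.Helper11.Can
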